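import Mathlib
import Pool.Agent.MP_ee25d9_nt.Main

/-!
# Cubed central binomial convolution sum modulo `p ^ 4`
-/

open Finset Pool.Agent.Lib.PadicCong Pool.Agent.MP_ee25d9_nt

namespace Pool.Agent.Results.MP_ee25d9_nt.ModPFour

/-- For every prime `p ≡ 3 mod 4` with `p > 3` and every `r ≥ 1`, the numerator (in lowest terms)
of `S(p,r) = ∑_{k < p^r} (1/64^k) ∑_{j ≤ k} binom(2j,j)^3 binom(2(k-j),k-j)^3`
is divisible by `p^4`. -/
theorem result (p : ℕ) (hp : p.Prime) (hp4 : p % 4 = 3) (hp3 : 3 < p) (r : ℕ) (hr : 1 ≤ r) :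
    ((p : ℤ) ^ 4) ∣ (∑ k ∈ range (p ^ r),
      (∑ j ∈ range (k + 1), ((2 * j).choose j : ℚ) ^ 3 * ((2 * (k - j)).choose (k - j) : ℚ) ^ 3) /
        (64 : ℚ) ^ k).num := by
  haveI : Fact p.Prime := ⟨hp⟩
  obtain ⟨h, hph⟩ : ∃ h, p = 2 * h + 1 := ⟨p / 2, by omega⟩
  have hodd : h % 2 = 1 := by omega
  have h3 : 3 ≤ h := by omega
  obtain ⟨t, rfl⟩ : ∃ t, r = t + 1 := ⟨r - 1, by omega⟩
  have hV := V_total hph hodd h3 (p ^ t)
  rw [← sum_tri] at hV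
  have e : ∑ k ∈ range (p ^ (t + 1)),
      (∑ j ∈ range (k + 1), ((2 * j).choose j : ℚ) ^ 3 * ((2 * (k - j)).choose (k - j) : ℚ) ^ 3) /
        (64 : ℚ) ^ k = ∑ k ∈ range (p * p ^ t), ∑ j ∈ range (k + 1), u j ^ 3 * u (k - j) ^ 3 := by
    rw [pow_succ']
    apply Finset.sum_congr rfl
    intro k _
    rw [Finset.sum_div]
    apply Finset.sum_congr rfl
    intro j hj
    have hj' : j ≤ k := Nat.lt_succ_iff.mp (mem_range.mp hj)
    unfold u
    have e64 : (64 : ℚ) ^ k = (4 ^ j) ^ 3 * (4 ^ (k - j)) ^ 3 := by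
      rw [← mul_pow, ← pow_add, show j + (k - j) = k by omega, ← pow_mul, mul_comm k 3, pow_mul]
      norm_num
    rw [e64, div_pow, div_pow, div_mul_div_comm]
  rw [e]
  exact V.num_dvd hV

end Pool.Agent.Results.MP_ee25d9_nt.ModPFour
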